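import Mathlib

set_option autoImplicit false

/-!
# The data of a polygon with 60 sides and the verification of the certificates

The `k`-th side lies on the line `fa k * x + fb k * y = 1000`.
-/

namespace Q97.Gamma

/-- The coefficients of `x`. -/
def FA : List ℤ := [972, 970, 966, 923, 870, 813, 757, 707, 628, 535, 437, 342, 259, 166, 57, -57, -166, -259,
  -342, -437, -535, -628, -707, -757, -813, -870, -923, -966, -970, -972, -972, -970, -966,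
  -923, -870, -813, -757, -707, -628, -535, -437, -342, -259, -166, -57, 57, 166, 259, 342, 437,
  535, 628, 707, 757, 813, 870, 923, 966, 970, 972]

/-- The coefficients of `y`. -/
def FB : List ℤ := [535, 628, 707, 757, 813, 870, 923, 966, 970, 972, 972, 970, 966, 923, 870, 813, 757, 707, 628,
  535, 437, 342, 259, 166, 57, -57, -166, -259, -342, -437, -535, -628, -707, -757, -813, -870,
  -923, -966, -970, -972, -972, -970, -966, -923, -870, -813, -757, -707, -628, -535, -437,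
  -342, -259, -166, -57, 57, 166, 259, 342, 437]

/-- The coefficient of `x` in the `k`-th functional (times 1000). -/
def fa (k : ℕ) : ℤ := FA.getD (k % 60) 0

/-- The coefficient of `y` in the `k`-th functional (times 1000). -/
def fb (k : ℕ) : ℤ := FB.getD (k % 60) 0

/-- The determinant of two consecutive functionals. -/
def vz (q : ℕ) : ℤ := fa (q + 59) * fb q - fb (q + 59) * fa q

/-- `w i q / vz q` is the value of the `i`-th functional at the `q`-th vertex. -/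
def w (i q : ℕ) : ℤ := fa i * (fb q - fb (q + 59)) + fb i * (fa (q + 59) - fa q)

/-- The first functional of the certificates. -/
def K1 : List (List ℕ) := [[0, 0, 0, 0, 0, 0, 0, 0, 0, 0, 0, 0, 0, 0, 0, 0, 22, 22, 24, 23, 25, 25, 23, 26, 27, 26, 26,
  27, 32, 28, 27, 32, 32, 31, 32, 31, 31, 37, 37, 33, 35, 36, 37, 37, 37, 0, 0, 0, 0, 0, 0, 0,
  0, 0, 0, 0, 0, 0, 0, 0], [0, 0, 0, 0, 0, 0, 0, 0, 0, 0, 0, 0, 0, 0, 0, 0, 0, 22, 24, 25, 26,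
  22, 23, 27, 28, 26, 28, 27, 28, 27, 32, 30, 32, 32, 30, 31, 32, 37, 32, 32, 35, 32, 37, 37,
  37, 37, 0, 0, 0, 0, 0, 0, 0, 0, 0, 0, 0, 0, 0, 0], [0, 0, 0, 0, 0, 0, 0, 0, 0, 0, 0, 0, 0, 0,
  0, 0, 0, 24, 27, 27, 27, 27, 27, 31, 32, 32, 32, 27, 32, 32, 32, 32, 32, 31, 32, 32, 32, 32,
  32, 32, 33, 33, 37, 37, 37, 37, 37, 39, 0, 0, 0, 0, 0, 0, 0, 0, 0, 0, 0, 0], [0, 0, 0, 0, 0,
  0, 0, 0, 0, 0, 0, 0, 0, 0, 0, 0, 0, 0, 0, 27, 27, 27, 27, 32, 32, 32, 27, 27, 31, 33, 31, 32,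
  31, 34, 37, 35, 33, 37, 37, 38, 36, 37, 41, 42, 38, 37, 39, 42, 0, 0, 0, 0, 0, 0, 0, 0, 0, 0,
  0, 0], [0, 0, 0, 0, 0, 0, 0, 0, 0, 0, 0, 0, 0, 0, 0, 0, 0, 0, 0, 0, 27, 27, 27, 28, 30, 29,
  27, 27, 33, 33, 32, 30, 32, 37, 34, 33, 34, 37, 38, 38, 37, 38, 42, 42, 40, 39, 42, 42, 42, 0,
  0, 0, 0, 0, 0, 0, 0, 0, 0, 0], [0, 0, 0, 0, 0, 0, 0, 0, 0, 0, 0, 0, 0, 0, 0, 0, 0, 0, 0, 0, 0,
  27, 27, 27, 29, 29, 27, 27, 31, 32, 31, 31, 32, 35, 33, 35, 32, 37, 39, 37, 36, 36, 42, 42,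
  39, 39, 41, 42, 42, 42, 0, 0, 0, 0, 0, 0, 0, 0, 0, 0], [0, 0, 0, 0, 0, 0, 0, 0, 0, 0, 0, 0, 0,
  0, 0, 0, 0, 0, 0, 0, 0, 0, 27, 29, 32, 31, 27, 28, 32, 33, 31, 32, 32, 33, 34, 32, 35, 38, 37,
  38, 36, 38, 42, 37, 37, 37, 37, 42, 42, 42, 42, 0, 0, 0, 0, 0, 0, 0, 0, 0], [0, 0, 0, 0, 0, 0,
  0, 0, 0, 0, 0, 0, 0, 0, 0, 0, 0, 0, 0, 0, 0, 0, 29, 32, 32, 32, 32, 32, 36, 36, 37, 37, 32,
  37, 37, 37, 38, 37, 37, 37, 37, 37, 37, 37, 37, 37, 38, 42, 42, 42, 42, 42, 44, 0, 0, 0, 0, 0,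
  0, 0], [0, 0, 0, 0, 0, 0, 0, 0, 0, 0, 0, 0, 0, 0, 0, 0, 0, 0, 0, 0, 0, 0, 0, 0, 32, 32, 32,
  32, 37, 34, 37, 32, 32, 37, 38, 39, 37, 37, 39, 37, 42, 38, 42, 41, 43, 41, 42, 46, 47, 43,
  44, 44, 47, 0, 0, 0, 0, 0, 0, 0], [0, 0, 0, 0, 0, 0, 0, 0, 0, 0, 0, 0, 0, 0, 0, 0, 0, 0, 0, 0,
  0, 0, 0, 0, 0, 32, 32, 32, 33, 34, 33, 32, 32, 38, 38, 37, 38, 37, 37, 42, 38, 37, 42, 43, 43,
  42, 43, 46, 44, 44, 43, 45, 47, 47, 0, 0, 0, 0, 0, 0]]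

/-- The multipliers (times 16) of the first functional. -/
def M1 : List (List ℤ) := [[0, 0, 0, 0, 0, 0, 0, 0, 0, 0, 0, 0, 0, 0, 0, 0, 27, 818, 84, 96, 106, 116, 148, 100, 96, 108,
  112, 114, 118, 114, 118, 114, 112, 114, 102, 108, 106, 178, 134, 118, 106, 96, 404, 2860, 12,
  0, 0, 0, 0, 0, 0, 0, 0, 0, 0, 0, 0, 0, 0, 0], [0, 0, 0, 0, 0, 0, 0, 0, 0, 0, 0, 0, 0, 0, 0, 0,
  0, 38, 72, 84, 96, 122, 148, 90, 100, 106, 108, 114, 114, 118, 114, 114, 112, 108, 130, 112,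
  100, 178, 140, 134, 116, 122, 372, 534, 1136, 16, 0, 0, 0, 0, 0, 0, 0, 0, 0, 0, 0, 0, 0, 0],
  [0, 0, 0, 0, 0, 0, 0, 0, 0, 0, 0, 0, 0, 0, 0, 0, 0, 10, 38, 818, 404, 372, 336, 148, 176, 178,
  178, 176, 114, 114, 112, 112, 112, 134, 112, 114, 114, 176, 178, 178, 148, 148, 336, 394, 408,
  546, 38, 10, 0, 0, 0, 0, 0, 0, 0, 0, 0, 0, 0, 0], [0, 0, 0, 0, 0, 0, 0, 0, 0, 0, 0, 0, 0, 0,
  0, 0, 0, 0, 0, 27, 2860, 534, 394, 122, 126, 134, 140, 178, 108, 112, 114, 108, 134, 114, 120,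
  114, 114, 114, 100, 106, 100, 90, 148, 122, 96, 86, 72, 38, 0, 0, 0, 0, 0, 0, 0, 0, 0, 0, 0,
  0], [0, 0, 0, 0, 0, 0, 0, 0, 0, 0, 0, 0, 0, 0, 0, 0, 0, 0, 0, 0, 12, 1136, 408, 96, 106, 116,
  134, 178, 106, 108, 102, 130, 112, 120, 112, 114, 114, 114, 112, 108, 96, 100, 176, 126, 106,
  94, 86, 546, 16, 0, 0, 0, 0, 0, 0, 0, 0, 0, 0, 0], [0, 0, 0, 0, 0, 0, 0, 0, 0, 0, 0, 0, 0, 0,
  0, 0, 0, 0, 0, 0, 0, 16, 546, 86, 94, 106, 126, 176, 100, 96, 108, 112, 114, 114, 114, 112,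
  120, 112, 130, 102, 108, 106, 178, 134, 116, 106, 96, 408, 1136, 12, 0, 0, 0, 0, 0, 0, 0, 0,
  0, 0], [0, 0, 0, 0, 0, 0, 0, 0, 0, 0, 0, 0, 0, 0, 0, 0, 0, 0, 0, 0, 0, 0, 38, 72, 86, 96, 122,
  148, 90, 100, 106, 100, 114, 114, 114, 120, 114, 134, 108, 114, 112, 108, 178, 140, 134, 126,
  122, 394, 534, 2860, 27, 0, 0, 0, 0, 0, 0, 0, 0, 0], [0, 0, 0, 0, 0, 0, 0, 0, 0, 0, 0, 0, 0,
  0, 0, 0, 0, 0, 0, 0, 0, 0, 10, 38, 546, 408, 394, 336, 148, 148, 178, 178, 176, 114, 114, 112,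
  134, 112, 112, 112, 114, 114, 176, 178, 178, 176, 148, 336, 372, 404, 818, 38, 10, 0, 0, 0, 0,
  0, 0, 0], [0, 0, 0, 0, 0, 0, 0, 0, 0, 0, 0, 0, 0, 0, 0, 0, 0, 0, 0, 0, 0, 0, 0, 0, 16, 1136,
  534, 372, 122, 116, 134, 140, 178, 100, 112, 130, 108, 112, 114, 114, 118, 114, 114, 108, 106,
  100, 90, 148, 122, 96, 84, 72, 38, 0, 0, 0, 0, 0, 0, 0], [0, 0, 0, 0, 0, 0, 0, 0, 0, 0, 0, 0,
  0, 0, 0, 0, 0, 0, 0, 0, 0, 0, 0, 0, 0, 12, 2860, 404, 96, 106, 118, 134, 178, 106, 108, 102,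
  114, 112, 114, 118, 114, 118, 114, 112, 108, 96, 100, 148, 116, 106, 96, 84, 818, 27, 0, 0, 0,
  0, 0, 0]]

/-- The first functional of the certificate of the pair `(i, j)`. -/
def k1 (i j : ℕ) : ℕ := (K1.getD (i % 10) []).getD ((j + 60 - i / 10 * 10) % 60) 0 + i / 10 * 10

/-- The first multiplier (times 16) of the certificate of the pair `(i, j)`. -/
def m1 (i j : ℕ) : ℤ := (M1.getD (i % 10) []).getD ((j + 60 - i / 10 * 10) % 60) 0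

/-- The second multiplier (times 16) of the certificate of the pair `(i, j)`. -/
def m2 (i j : ℕ) : ℤ :=
  if i % 5 = 2 ∧ ((j + 60 - i) % 60 = 15 ∨ (j + 60 - i) % 60 = 45) then 13 else 0

/-- The second functional of the certificate follows the first one. -/
def k2 (i j : ℕ) : ℕ := k1 i j + 1

/-- The certificate inequality at the vertices `p` of the first side and `q` of the second. -/
def corner (i j p q : ℕ) : Bool :=
  0 ≤ 1000 * (m1 i j * (w (k1 i j) q * vz p - w (k1 i j) p * vz q) +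
      m2 i j * (w (k2 i j) q * vz p - w (k2 i j) p * vz q)) -
    (m1 i j + m2 i j) * 1465 * vz p * vz q +
    16000 * (w i q * vz p + w j p * vz q) + 2336 * vz p * vz q

/-- All checks for the pair `(i, j)`. -/
def chk (i j : ℕ) : Bool :=
  0 ≤ m1 i j && corner i j i j && corner i j i (j + 1) && corner i j (i + 1) j &&
    corner i j (i + 1) (j + 1)

theorem chk_all : ∀ i < 60, ∀ j < 60, chk i j = true := by decide +kernel

theorem vz_pos : ∀ q < 61, 0 < vz q := by decide +kernel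

theorem w_prev : ∀ i < 60, w (i + 59) (i + 1) < vz (i + 1) := by decide +kernel

theorem w_next : ∀ i < 60, w (i + 1) i < vz i := by decide +kernel

theorem w_self : ∀ i < 60, w i i = vz i := by decide +kernel

theorem w_self_next : ∀ i < 60, w i (i + 1) = vz (i + 1) := by decide +kernel

theorem fa_opp : ∀ i < 60, fa (i + 30) = - fa i := by decide +kernel

theorem fb_opp : ∀ i < 60, fb (i + 30) = - fb i := by decide +kernel

theorem w_le : ∀ i < 60, ∀ q < 60, w i q ≤ vz q := by decide +kernel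

end Q97.Gamma
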