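import Pool.Agent.Q97.Gamma.Data
import Pool.Agent.Q97.Renorm

set_option autoImplicit false

/-!
# The geometry of the polygonal norm
-/

namespace Q97.Gamma

open Filter Topology

/-- The `k`-th functional. -/
noncomputable def L (k : ℕ) : ℝ × ℝ →ₗ[ℝ] ℝ :=
  ((fa k : ℝ) / 1000) • LinearMap.fst ℝ ℝ ℝ + ((fb k : ℝ) / 1000) • LinearMap.snd ℝ ℝ ℝ

theorem L_apply (k : ℕ) (v : ℝ × ℝ) : L k v = (fa k : ℝ) / 1000 * v.1 + (fb k : ℝ) / 1000 * v.2 :=
  rfl

theorem fa_mod (k : ℕ) : fa (k % 60) = fa k := by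
  unfold fa; rw [Nat.mod_mod]

theorem fb_mod (k : ℕ) : fb (k % 60) = fb k := by
  unfold fb; rw [Nat.mod_mod]

theorem L_mod (k : ℕ) : L (k % 60) = L k := by
  unfold L; rw [fa_mod, fb_mod]

theorem L_opp {k : ℕ} (hk : k < 60) (v : ℝ × ℝ) : L (k + 30) v = - L k v := by
  rw [L_apply, L_apply, fa_opp k hk, fb_opp k hk]
  push_cast
  ring

theorem fa_abs : ∀ i < 60, |fa i| ≤ 1000 := by decide +kernel

theorem fb_abs : ∀ i < 60, |fb i| ≤ 1000 := by decide +kernel

theorem abs_L_le {k : ℕ} (hk : k < 60) (v : ℝ × ℝ) : |L k v| ≤ 2 * ‖v‖ := by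
  have h1 : |(fa k : ℝ)| ≤ 1000 := by exact_mod_cast fa_abs k hk
  have h2 : |(fb k : ℝ)| ≤ 1000 := by exact_mod_cast fb_abs k hk
  have h3 : |v.1| ≤ ‖v‖ := norm_fst_le v
  have h4 : |v.2| ≤ ‖v‖ := norm_snd_le v
  rw [L_apply]
  refine (abs_add_le _ _).trans ?_
  rw [abs_mul, abs_mul, abs_div, abs_div, abs_of_pos (by norm_num : (0 : ℝ) < 1000)]
  have h5 : |(fa k : ℝ)| / 1000 ≤ 1 := by rw [div_le_one (by norm_num)]; exact h1
  have h6 : |(fb k : ℝ)| / 1000 ≤ 1 := by rw [div_le_one (by norm_num)]; exact h2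
  have h7 := mul_le_mul h5 h3 (abs_nonneg _) zero_le_one
  have h8 := mul_le_mul h6 h4 (abs_nonneg _) zero_le_one
  linarith

theorem norm_le_of_L {v : ℝ × ℝ} {b : ℝ} (h : ∀ k : Fin 60, |L k v| ≤ b) : ‖v‖ ≤ 3 * b := by
  have e0 : fa 0 = 972 ∧ fb 0 = 535 ∧ fa 9 = 535 ∧ fb 9 = 972 := by decide +kernel
  have h0 := h 0
  have h9 := h 9
  have c0 : ((0 : Fin 60) : ℕ) = 0 := rfl
  have c9 : ((9 : Fin 60) : ℕ) = 9 := rfl
  rw [c0, L_apply, e0.1, e0.2.1] at h0
  rw [c9, L_apply, e0.2.2.1, e0.2.2.2] at h9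
  push_cast at h0 h9
  have h0' := abs_le.mp h0
  have h9' := abs_le.mp h9
  rw [Prod.norm_def, Real.norm_eq_abs, Real.norm_eq_abs]
  apply max_le <;> rw [abs_le] <;> constructor <;> linarith [h0'.1, h0'.2, h9'.1, h9'.2]

/-- The polygonal norm. -/
noncomputable def E : EqNorm ℝ (ℝ × ℝ) :=
  EqNorm.ofSup (fun (i : Fin 60) v => |L i v|)
    (fun i v w => by rw [map_add]; exact abs_add_le _ _)
    (fun i c v => by rw [map_smul, smul_eq_mul, abs_mul, Real.norm_eq_abs])
    2 (fun i v => abs_L_le i.2 v) 3 (fun _ _ h => norm_le_of_L h)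

theorem abs_L_le_N (i : Fin 60) (v : ℝ × ℝ) : |L i v| ≤ E.N v :=
  EqNorm.le_ofSup (fun (i : Fin 60) (v : ℝ × ℝ) => |L i v|) _ _ _ _ _ _ i v

theorem L_le_N (k : ℕ) (v : ℝ × ℝ) : L k v ≤ E.N v := by
  rw [← L_mod]
  exact (le_abs_self _).trans (abs_L_le_N ⟨k % 60, Nat.mod_lt _ (by norm_num)⟩ v)

theorem exists_L_eq (v : ℝ × ℝ) : ∃ k < 60, L k v = E.N v := by
  obtain ⟨i, hi⟩ := exists_eq_ciSup_of_finite (f := fun i : Fin 60 => |L i v|)
  have hi' : |L i v| = E.N v := hi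
  rcases abs_choice (L i v) with h | h
  · exact ⟨i, i.2, by rw [← h, hi']⟩
  · refine ⟨((i : ℕ) + 30) % 60, Nat.mod_lt _ (by norm_num), ?_⟩
    rw [L_mod, L_opp i.2, ← h, hi']

theorem N_le {v : ℝ × ℝ} {b : ℝ} (h : ∀ k < 60, L k v ≤ b) : E.N v ≤ b := by
  obtain ⟨k, hk, hv⟩ := exists_L_eq v
  rw [← hv]
  exact h k hk

/-- A functional of norm one which norms `x` is at least as large at `y` as one of the functionals
`L k` active at `x`. -/
theorem exists_active {x y : ℝ × ℝ} (hx : E.N x = 1) (p : ℝ × ℝ →ₗ[ℝ] ℝ) (hpx : p x = 1)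
    (hp : ∀ v, p v ≤ E.N v) : ∃ k < 60, L k x = 1 ∧ L k y ≤ p y := by
  by_contra hcon
  push Not at hcon
  have hlim : ∀ k < 60, ∀ᶠ h in 𝓝[>] (0 : ℝ), L k (x - h • y) < 1 - h * p y := by
    intro k hk
    have hval : ∀ h : ℝ, L k (x - h • y) = L k x - h * L k y := by
      intro h
      rw [map_sub, map_smul, smul_eq_mul]
    rcases eq_or_ne (L k x) 1 with h1 | h1
    · filter_upwards [self_mem_nhdsWithin] with h hh
      have hh' : 0 < h := hh
      rw [hval, h1]
      have := hcon k hk h1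
      nlinarith
    · have h2 : L k x < 1 := lt_of_le_of_ne (by rw [← hx]; exact L_le_N k x) h1
      have h3 : Tendsto (fun h : ℝ => L k x - h * L k y - (1 - h * p y)) (𝓝[>] 0)
          (𝓝 (L k x - 0 * L k y - (1 - 0 * p y))) := by
        apply Tendsto.mono_left _ nhdsWithin_le_nhds
        apply Continuous.tendsto
        fun_prop
      have h4 : L k x - 0 * L k y - (1 - 0 * p y) < 0 := by linarith
      filter_upwards [h3.eventually_lt_const h4] with h hh
      rw [hval]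
      linarith
  have hall : ∀ᶠ h in 𝓝[>] (0 : ℝ), ∀ k ∈ Finset.range 60, L k (x - h • y) < 1 - h * p y := by
    rw [Filter.eventually_all_finset]
    intro k hk
    exact hlim k (Finset.mem_range.mp hk)
  obtain ⟨h, hh⟩ := hall.exists
  obtain ⟨k, hk, hk'⟩ := exists_L_eq (x - h • y)
  have h5 := hh k (Finset.mem_range.mpr hk)
  rw [hk'] at h5
  have h6 := hp (x - h • y)
  rw [map_sub, map_smul, smul_eq_mul, hpx] at h6
  linarith

/-- The vertices. -/
noncomputable def P (q : ℕ) : ℝ × ℝ :=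
  (1000 * ((fb q : ℝ) - fb (q + 59)) / vz q, 1000 * ((fa (q + 59) : ℝ) - fa q) / vz q)

theorem L_P (i : ℕ) {q : ℕ} (hq : q < 61) : L i (P q) = (w i q : ℝ) / vz q := by
  have h : (vz q : ℝ) ≠ 0 := by exact_mod_cast (vz_pos q hq).ne'
  rw [L_apply, P, w]
  push_cast
  field_simp

theorem vzR_pos {q : ℕ} (hq : q < 61) : (0 : ℝ) < vz q := by exact_mod_cast vz_pos q hq

/-- Points of a side are convex combinations of the vertices. -/
theorem edge {i : ℕ} (hi : i < 60) {x : ℝ × ℝ} (h0 : L i x = 1) (h1 : L (i + 59) x ≤ 1)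
    (h2 : L (i + 1) x ≤ 1) :
    ∃ s : ℝ, 0 ≤ s ∧ s ≤ 1 ∧ ∀ k, L k x = (1 - s) * L k (P i) + s * L k (P (i + 1)) := by
  have hi' : i < 61 := by omega
  have hi1 : i + 1 < 61 := by omega
  have a1 : L i (P i) = 1 := by
    rw [L_P i hi', w_self i hi, div_self (vzR_pos hi').ne']
  have a2 : L i (P (i + 1)) = 1 := by
    rw [L_P i hi1, w_self_next i hi, div_self (vzR_pos hi1).ne']
  have a3 : L (i + 59) (P i) = 1 := by
    rw [L_P _ hi']
    have : w (i + 59) i = vz i := by unfold w vz; ring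
    rw [this, div_self (vzR_pos hi').ne']
  have a4 : L (i + 59) (P (i + 1)) < 1 := by
    rw [L_P _ hi1, div_lt_one (vzR_pos hi1)]
    exact_mod_cast w_prev i hi
  have a5 : L (i + 1) (P (i + 1)) = 1 := by
    rw [L_P _ hi1]
    have h61 : fa (i + 1 + 59) = fa i ∧ fb (i + 1 + 59) = fb i := by
      have e : (i + 1 + 59) % 60 = i % 60 := by omega
      unfold fa fb
      rw [e]
      exact ⟨rfl, rfl⟩
    have : w (i + 1) (i + 1) = vz (i + 1) := by
      unfold w vz
      rw [h61.1, h61.2]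
      ring
    rw [this, div_self (vzR_pos hi1).ne']
  have a6 : L (i + 1) (P i) < 1 := by
    rw [L_P _ hi', div_lt_one (vzR_pos hi')]
    exact_mod_cast w_next i hi
  set s : ℝ := (1 - L (i + 59) x) / (1 - L (i + 59) (P (i + 1))) with hs
  have hden : 0 < 1 - L (i + 59) (P (i + 1)) := by linarith
  have hs0 : 0 ≤ s := div_nonneg (by linarith) hden.le
  have hsx : L (i + 59) x = (1 - s) * L (i + 59) (P i) + s * L (i + 59) (P (i + 1)) := by
    have : s * (1 - L (i + 59) (P (i + 1))) = 1 - L (i + 59) x := by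
      rw [hs]; field_simp
    rw [a3]
    linarith
  have hsx' : L i x = (1 - s) * L i (P i) + s * L i (P (i + 1)) := by
    rw [h0, a1, a2]; ring
  -- the difference is killed by two independent functionals
  set z : ℝ × ℝ := x - ((1 - s) • P i + s • P (i + 1)) with hz
  have hz1 : L i z = 0 := by
    rw [hz, map_sub, map_add, map_smul, map_smul, smul_eq_mul, smul_eq_mul, hsx', sub_self]
  have hz2 : L (i + 59) z = 0 := by
    rw [hz, map_sub, map_add, map_smul, map_smul, smul_eq_mul, smul_eq_mul, hsx, sub_self]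
  have hdet : (fa (i + 59) : ℝ) * fb i - fb (i + 59) * fa i ≠ 0 := by
    have h := (vzR_pos hi').ne'
    unfold vz at h
    push_cast at h
    exact h
  have hz0 : z = 0 := by
    rw [L_apply] at hz1 hz2
    have b1 : ((fa (i + 59) : ℝ) * fb i - fb (i + 59) * fa i) * z.1 = 0 := by
      linear_combination (1000 * (fb i : ℝ)) * hz2 - (1000 * (fb (i + 59) : ℝ)) * hz1
    have b2 : ((fa (i + 59) : ℝ) * fb i - fb (i + 59) * fa i) * z.2 = 0 := by
      linear_combination (1000 * (fa (i + 59) : ℝ)) * hz1 - (1000 * (fa i : ℝ)) * hz2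
    exact Prod.ext ((mul_eq_zero.mp b1).resolve_left hdet) ((mul_eq_zero.mp b2).resolve_left hdet)
  have hx : x = (1 - s) • P i + s • P (i + 1) := sub_eq_zero.mp hz0
  have hall : ∀ k, L k x = (1 - s) * L k (P i) + s * L k (P (i + 1)) := by
    intro k
    conv_lhs => rw [hx]
    rw [map_add, map_smul, map_smul, smul_eq_mul, smul_eq_mul]
  refine ⟨s, hs0, ?_, hall⟩
  have h7 := hall (i + 1)
  rw [a5] at h7
  by_contra hcon
  push Not at hcon
  nlinarith

theorem corner_real {i j p q : ℕ} (hp : p < 61) (hq : q < 61) (h : corner i j p q = true) :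
    0 ≤ (m1 i j : ℝ) / 16 * (L (k1 i j) (P q) - L (k1 i j) (P p) - 293 / 200) +
      (m2 i j : ℝ) / 16 * (L (k2 i j) (P q) - L (k2 i j) (P p) - 293 / 200) +
      L i (P q) + L j (P p) + 73 / 500 := by
  unfold corner at h
  rw [decide_eq_true_eq] at h
  have h' : (0 : ℝ) ≤ 1000 * (m1 i j * (w (k1 i j) q * vz p - w (k1 i j) p * vz q) +
      m2 i j * (w (k2 i j) q * vz p - w (k2 i j) p * vz q)) -
    (m1 i j + m2 i j) * 1465 * vz p * vz q +
    16000 * (w i q * vz p + w j p * vz q) + 2336 * vz p * vz q := by exact_mod_cast h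
  have hvp := vzR_pos hp
  have hvq := vzR_pos hq
  rw [L_P _ hp, L_P _ hp, L_P _ hp, L_P _ hq, L_P _ hq, L_P _ hq]
  have e : (m1 i j : ℝ) / 16 * ((w (k1 i j) q : ℝ) / vz q - w (k1 i j) p / vz p - 293 / 200) +
      (m2 i j : ℝ) / 16 * ((w (k2 i j) q : ℝ) / vz q - w (k2 i j) p / vz p - 293 / 200) +
      w i q / vz q + w j p / vz p + 73 / 500 =
      (1000 * (m1 i j * (w (k1 i j) q * vz p - w (k1 i j) p * vz q) +
      m2 i j * (w (k2 i j) q * vz p - w (k2 i j) p * vz q)) -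
    (m1 i j + m2 i j) * 1465 * vz p * vz q +
    16000 * (w i q * vz p + w j p * vz q) + 2336 * vz p * vz q) / (16000 * vz p * vz q) := by
    field_simp
    ring
  rw [e]
  positivity

theorem m2_nonneg (i j : ℕ) : 0 ≤ m2 i j := by
  unfold m2
  split_ifs <;> norm_num

/-- The main estimate for a pair of sides. -/
theorem main_pair {i j : ℕ} (hi : i < 60) (hj : j < 60) {x y : ℝ × ℝ} (hx : E.N x = 1)
    (hy : E.N y = 1) (hix : L i x = 1) (hjy : L j y = 1) (hxy : E.N (y - x) ≤ 293 / 200) :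
    -(73 / 500) ≤ L i y + L j x := by
  have hc := chk_all i hi j hj
  unfold chk at hc
  rw [Bool.and_eq_true, Bool.and_eq_true, Bool.and_eq_true, Bool.and_eq_true,
    decide_eq_true_eq] at hc
  obtain ⟨⟨⟨⟨hm, c1⟩, c2⟩, c3⟩, c4⟩ := hc
  have C1 := corner_real (by omega) (by omega) c1
  have C2 := corner_real (by omega) (by omega) c2
  have C3 := corner_real (by omega) (by omega) c3
  have C4 := corner_real (by omega) (by omega) c4
  obtain ⟨s, hs0, hs1, hs⟩ := edge hi hix (by rw [← hx]; exact L_le_N _ x)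
    (by rw [← hx]; exact L_le_N _ x)
  obtain ⟨t, ht0, ht1, ht⟩ := edge hj hjy (by rw [← hy]; exact L_le_N _ y)
    (by rw [← hy]; exact L_le_N _ y)
  have hm1 : (0 : ℝ) ≤ (m1 i j : ℝ) / 16 := by
    have : (0 : ℝ) ≤ (m1 i j : ℝ) := by exact_mod_cast hm
    positivity
  have hm2 : (0 : ℝ) ≤ (m2 i j : ℝ) / 16 := by
    have : (0 : ℝ) ≤ (m2 i j : ℝ) := by exact_mod_cast m2_nonneg i j
    positivity
  have d1 : L (k1 i j) y - L (k1 i j) x - 293 / 200 ≤ 0 := by
    have := (L_le_N (k1 i j) (y - x)).trans hxy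
    rw [map_sub] at this
    linarith
  have d2 : L (k2 i j) y - L (k2 i j) x - 293 / 200 ≤ 0 := by
    have := (L_le_N (k2 i j) (y - x)).trans hxy
    rw [map_sub] at this
    linarith
  have key : 0 ≤ (m1 i j : ℝ) / 16 * (L (k1 i j) y - L (k1 i j) x - 293 / 200) +
      (m2 i j : ℝ) / 16 * (L (k2 i j) y - L (k2 i j) x - 293 / 200) +
      L i y + L j x + 73 / 500 := by
    have e := add_nonneg (add_nonneg (add_nonneg
      (mul_nonneg (mul_nonneg (sub_nonneg.mpr hs1) (sub_nonneg.mpr ht1)) C1)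
      (mul_nonneg (mul_nonneg (sub_nonneg.mpr hs1) ht0) C2))
      (mul_nonneg (mul_nonneg hs0 (sub_nonneg.mpr ht1)) C3))
      (mul_nonneg (mul_nonneg hs0 ht0) C4)
    rw [ht (k1 i j), hs (k1 i j), ht (k2 i j), hs (k2 i j), ht i, hs j]
    refine e.trans (le_of_eq ?_)
    ring
  have f1 := mul_nonpos_of_nonneg_of_nonpos hm1 d1
  have f2 := mul_nonpos_of_nonneg_of_nonpos hm2 d2
  linarith

end Q97.Gamma
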